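import Pool.Agent.H94.Toep.Final

/-!
# A Toeplitz subshift of topological rank two that is not strong Toeplitz of any rank

The definitions (Toeplitz subshifts, ordered Bratteli diagrams, the Vershik map, topological rank,
strong Toeplitz subshifts of rank `K`) are in `Pool.Agent.H94.Toep.Defs`.
-/

namespace Pool.Agent.Results.MP_423453_an.NoRankFunction

open Pool.Agent.H94.Toep

/-- There is a Toeplitz subshift over `{0,1}` of topological rank `2` which is not a strong Toeplitz
subshift of rank `K` for any `K`. In particular no function `h` as in the question exists. -/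
theorem result : ∃ X : Set (ℤ → Bool),
    IsToeplitzSubshift X ∧ HasTopRank X 2 ∧ ∀ K : ℕ, ¬ IsStrongToeplitz X K :=
  ⟨XX, XX_isToeplitzSubshift, XX_hasTopRank_two, not_strong⟩

end Pool.Agent.Results.MP_423453_an.NoRankFunction
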